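import Pool.Agent.Helper13.TR.StC

/-!
# Project TR, module LOB: at least two sides
-/

set_option autoImplicit false

namespace Pool.Agent.Helper65.TR

open Set Topology Pool.Agent.Helper13.TR

/-- `H_1(A, A ∖ {t})` is not zero. -/
private lemma not_PP (hSUS : StSUS) (hMON : StMON) (A : Type) [TopologicalSpace A] [T2Space A]
    (t : A) (hM : HM (ℝ × ℝ × A)) : ¬ PP ({t} : Set A) 1 := by
  intro h1
  have h2 : PP ({((0 : ℝ), t)} : Set (ℝ × A)) 2 := hSUS A t 1 h1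
  have h3 : PP ({((0 : ℝ), ((0 : ℝ), t))} : Set (ℝ × ℝ × A)) 3 := hSUS (ℝ × A) ((0 : ℝ), t) 2 h2
  obtain ⟨N, _, hxN, c, hc, hG⟩ := hM.ori ((0 : ℝ), ((0 : ℝ), t))
  obtain ⟨_, _, _, _, hm, _⟩ := hMON (ℝ × ℝ × A)
  have h4 : c ∈ Cyc ({((0 : ℝ), ((0 : ℝ), t))} : Set (ℝ × ℝ × A)) 3 :=
    (hm _ N 3 (singleton_subset_iff.2 hxN)).1 hc
  have h5 := (hG _ hxN).2 1 (by
    rw [one_smul]
    exact h3 h4)
  exact one_ne_zero h5

/-- MODULE LOB. -/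
theorem hLOB (hSUS : StSUS) (hSM : StSM) (hSDA : StSDA) (hJOI : StJOI) (hMON : StMON) : StLOB := by
  intro A _ _ A' t hM hA' ht hcyc
  by_contra hcon
  push Not at hcon
  obtain ⟨m1, m2, m3, m4, _, _⟩ := hMON A
  obtain ⟨s1, _, _, _, _⟩ := hSDA A
  apply not_PP hSUS hMON A t hM
  intro c hc
  have hc' : bd 0 c ∈ cin ({t} : Set A)ᶜ 0 := hc
  have hU : A' ∪ ({t} : Set A)ᶜ = univ := by
    ext x
    simp only [mem_union, mem_compl_iff, mem_singleton_iff, mem_univ, iff_true]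
    by_cases hx : x = t
    · left
      rw [hx]
      exact ht
    · right
      exact hx
  obtain ⟨c₁, hc₁, c₂, hc₂, e, _, hce⟩ := hSM A A' ({t} : Set A)ᶜ hA' isOpen_compl_singleton 1 c
    (by
      rw [hU, m3]
      trivial)
    (by
      change bd 0 c ∈ cin A' 0 ⊔ cin ({t} : Set A)ᶜ 0
      exact Submodule.mem_sup_right hc')
  have h1 : bd 0 c₁ = bd 0 c - bd 0 c₂ := by
    have h2 : bd 0 c = bd 0 c₁ + bd 0 c₂ + bd 0 (bd 1 e) := by
      rw [← map_add, ← map_add, ← hce]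
    rw [s1 0 e, add_zero] at h2
    rw [h2]
    abel
  have h3 : bd 0 c₁ ∈ cin (A' \ {t}) 0 := by
    have h4 : bd 0 c₁ ∈ cin ({t} : Set A)ᶜ 0 := by
      rw [h1]
      exact Submodule.sub_mem _ hc' (m4 _ 0 c₂ hc₂)
    have h5 : bd 0 c₁ ∈ cin A' 0 ⊓ cin ({t} : Set A)ᶜ 0 := ⟨m4 _ 0 c₁ hc₁, h4⟩
    rw [m2] at h5
    rw [sdiff_eq]
    exact h5
  obtain ⟨_, j2, _, _, _⟩ := hJOI A univ
  have h6 : ev univ (bd 0 c₁) = 0 := by
    refine j2 univ (fun a b _ => by simp) c₁ ?_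
    rw [m3]
    trivial
  obtain ⟨_, _, _, j4, _⟩ := hJOI A (A' \ {t})
  obtain ⟨r, hr, hrc⟩ := j4 (fun a ha b hb => hcon a ha b hb) (bd 0 c₁) h3 h6
  have h7 : c₁ - r ∈ cin A' 1 :=
    Submodule.sub_mem _ hc₁ (m1 _ _ 1 sdiff_subset hr)
  obtain ⟨e', he'⟩ := hcyc (c₁ - r) h7 (by rw [map_sub, hrc, sub_self])
  have h8 : c = (r + c₂) + bd 1 (e + e') := by
    rw [map_add, he', hce]
    abel
  have h9 : r + c₂ ∈ cin ({t} : Set A)ᶜ 1 := by
    refine Submodule.add_mem _ (m1 _ _ 1 ?_ hr) hc₂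
    intro x hx
    exact hx.2
  rw [h8]
  exact Submodule.add_mem _ (Submodule.mem_sup_left h9)
    (Submodule.mem_sup_right ⟨e + e', rfl⟩)

end Pool.Agent.Helper65.TR
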